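import Pool.Agent.helper39.HC.TateBridge

/-!
# MP_3703a7_ag: the Tate conjecture for abelian varieties of CM type, in all degrees

`A = W ⧸ Lam` is a complex torus of CM type (`CMData`): up to isogeny a product of tori `ℂ^Φ_j ⧸ Φ_j(O_(K_j))`, `K_j` CM
fields and `Φ_j` CM types; every complex abelian variety with complex multiplication is of this form.

`H^k(A, ℚ)` is the space `Coh Lam k` of the constant real alternating `k`-forms on `W` which are rational on the
lattice, `H_k(A, R) = Hom(H^k(A, ℚ), R)` (`Hmg`) for every field `R` of characteristic zero (for instance `ℚ_l`). By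
Poincare duality `H_{2a}(A, ℚ_l)` is `H^{2(g-a)}(A, ℚ_l(g))`; the class of an algebraic cycle of dimension `a` is in
`H_{2a}(A, ℚ_l)(-a)`.

Algebraic classes: a compact ball quotient `Gam \ B^a` (`BallQuotient`) is a projective variety (Kodaira), a
holomorphic map `f : Gam \ B^a → A` (`IsMap`) is algebraic (Chow), `cls M f` is the class of the cycle `f_* [Gam \ B^a]`:
the integral over the ball quotient of the pull back of forms. `IsAlg` (`IsAlgL`): `R`-linear (`ℚ_l`-linear)
combinations of these classes.

Tate classes. Let `A` be defined over the number field `L ⊂ ℂ` (Galois over `ℚ`, containing the conjugates of all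
`K_j`) together with its complex multiplications; this is so after a finite extension. `V_l(A) = ∏ ℚ_l ⊗ K_j`, the
Galois group acts on it by multiplication by elements of this ring, and for almost all primes `P` of `L` every
Frobenius element over `P` acts as an element `t` of `∏ K_j`, which is integral, has absolute values `N(P)^(1/2)` in all
embeddings (Weil), and the prime ideal decomposition `(t_j) = ∏ σ⁻¹ P`, `σ` running over the elements of `Gal(L/ℚ)` which
induce on `K_j` an embedding in the CM type (theorem of Shimura and Taniyama); this is the definition of `IsFrb` (for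
`n = 1`) and `IsCM`. These properties determine `t` up to roots of unity.

* First part of the theorem: `ξ ∈ H_{2a}(A, R)` is a Tate class (`IsTateCl`: for some number field `L` and almost all
  primes `P` of `L`, the Frobenius at `P`, determined up to roots of unity by the theorem of Shimura and Taniyama, acts
  on `ξ` as `N(P)^a`, up to replacing it by a power) if and only if it is an `R`-linear combination of the classes of
  holomorphic maps of compact ball quotients.
* Second part: for every `l`-adic representation `ρ` of `Gal(Lbar/L)` on `V_l = ∏ ℚ_l ⊗ K_j` with Frobenius elements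
  given by the theorem of Shimura and Taniyama, the classes in `H_{2a}(A, ℚ_l) = Λ^{2a} V_l` on which `Gal(Lbar/L)` acts
  by the `a`-th power of the cyclotomic character are `ℚ_l`-linear combinations of these classes, and these linear
  combinations are exactly the classes which are Tate classes over a finite extension of `L` (`IsPotTate`).

## The proof

The Hodge classes of `A` are exactly the `ℚ`-linear combinations of classes of holomorphic maps of compact ball
quotients (`T_HodgeCM`; the proof, by theta forms on compact unitary ball quotients, is described in `HodgeCM.lean`).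
A homology class `ξ` with coefficients in `R` is `∑ r_i c_i` with `c_i` rational satisfying the same `ℚ`-linear relations
as `ξ`. There are infinitely many primes `P` of `L` of degree one with trivial decomposition group, and for some `n > 0`
there is `t` with the properties of the theorem of Shimura and Taniyama for the `n`-th power of the Frobenius. If
`t^N` acts on `c` as `N(P)^(naN)`, every weight `s` of `c` satisfies `∏ s_i(t)^N = N(P)^(naN)`, and the valuations at `P`
show that exactly `a` of the `2a` embeddings in `s` are in the CM types; so `c` is of Hodge type. Conversely a balanced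
weight takes the value `N(P)^(na)` times a root of unity at `t` (Kronecker).

No unproved statement is assumed.
-/

namespace Pool.Agent.helper39.Reserve.TateCM1

open Pool.Agent.HC Pool.Agent.HC.Tate

/-- The Tate conjecture for abelian varieties of CM type, in all degrees. -/
theorem result (W : Type) [NormedAddCommGroup W] [NormedSpace ℂ W] [FiniteDimensional ℂ W]
    (Lam : AddSubgroup W) (hLam : IsLattice Lam) (C : CMData W Lam) (a : ℕ) :
    (∀ (R : Type) [Field R] [CharZero R] (ξ : Hmg Lam (2 * a) R),
      IsTateCl C a ξ ↔ IsAlg Lam a ξ) ∧
    ∀ (L : Type) [Field L] [NumberField L] [IsGalois ℚ L] (ι : L →+* ℂ), Split C ι →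
      ∀ (l : ℕ) [Fact l.Prime] (ρ : Gal L →* Vl C l), IsCM C ι l ρ →
      ∀ Ξ : HmgL C l (2 * a), (IsTateOver ρ a Ξ → IsAlgL a Ξ) ∧ (IsPotTate ρ a Ξ ↔ IsAlgL a Ξ) := by
  refine ⟨fun R _ _ ξ => ?_, fun L _ _ _ ι hS l _ ρ hρ Ξ => ?_⟩
  · exact (isTate_iff C a ξ).trans
      ((TTFin.2.1.1 W Lam hLam C a R ξ).trans (isAlg_iff a ξ).symm)
  · have h := TTFin.2.1.2 W Lam hLam C a L ι hS l ρ (isCM_iff C ι l ρ hρ) Ξ
    exact ⟨fun h' => (isAlgL_iff C l a Ξ).mpr (h.1 (isTateOver_iff C l ρ a Ξ h')),
      (isPotTate_iff C l ρ a Ξ).trans (h.2.trans (isAlgL_iff C l a Ξ).symm)⟩

end Pool.Agent.helper39.Reserve.TateCM1
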